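import Pool.Agent.Y690.PP.Stm

/-!
# Job PP-FAC: a primary Gaussian integer is a square times a product of distinct primary primes
-/

set_option autoImplicit false

open Finset

namespace Pool.Agent.Y427.PP

open Pool.Agent.Y690.PP

theorem prm_iff (a : G) : Prm a ↔ (a.im % 2 = 0 ∧ (a.re - 1 + a.im) % 4 = 0) := by
  unfold Prm
  constructor
  · rintro ⟨c, hc⟩
    have h1 := congrArg Zsqrtd.re hc
    have h2 := congrArg Zsqrtd.im hc
    simp at h1 h2
    omega
  · rintro ⟨h1, h2⟩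
    refine ⟨⟨(a.re - 1 + a.im) / 4, (a.im - (a.re - 1)) / 4⟩, ?_⟩
    ext
    · simp
      omega
    · simp
      omega

theorem prm_one : Prm 1 := by
  rw [prm_iff]; simp

theorem prm_mul {a b : G} (ha : Prm a) (hb : Prm b) : Prm (a * b) := by
  unfold Prm at *
  have : a * b - 1 = a * (b - 1) + (a - 1) := by ring
  rw [this]
  exact dvd_add (Dvd.dvd.mul_left hb _) ha

theorem prm_cancel {a b : G} (ha : Prm a) (hb : Prm (a * b)) : Prm b := by
  unfold Prm at *
  have : b - 1 = (a * b - 1) - b * (a - 1) := by ring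
  rw [this]
  exact dvd_sub hb (Dvd.dvd.mul_left ha _)

theorem nm_mul (a b : G) : nm (a * b) = nm a * nm b := by
  unfold nm
  rw [Zsqrtd.norm_mul, Int.natAbs_mul]

theorem nm_unit {a : G} : nm a = 1 ↔ IsUnit a := by
  unfold nm
  exact Zsqrtd.norm_eq_one_iff

theorem nm_eq (a : G) : (nm a : ℤ) = a.re * a.re + a.im * a.im := by
  unfold nm
  rw [Int.natAbs_of_nonneg (GaussianInt.norm_nonneg a), Zsqrtd.norm_def]
  ring

theorem nm_zero {a : G} : nm a = 0 ↔ a = 0 := by
  unfold nm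
  rw [Int.natAbs_eq_zero]
  exact GaussianInt.norm_eq_zero

theorem unit_cases {u : G} (h : IsUnit u) : u = 1 ∨ u = -1 ∨ u = ⟨0, 1⟩ ∨ u = ⟨0, -1⟩ := by
  have h1 := nm_unit.2 h
  have h2 := nm_eq u
  rw [h1] at h2
  push_cast at h2
  have hr : u.re * u.re ≤ 1 := by nlinarith [mul_self_nonneg u.im]
  have hi : u.im * u.im ≤ 1 := by nlinarith [mul_self_nonneg u.re]
  have r1 : u.re ≤ 1 := by nlinarith
  have r2 : -1 ≤ u.re := by nlinarith
  have i1 : u.im ≤ 1 := by nlinarith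
  have i2 : -1 ≤ u.im := by nlinarith
  obtain ⟨a, b⟩ := u
  simp only at h2 r1 r2 i1 i2
  interval_cases a <;> interval_cases b <;> first | (left; rfl) | (right; left; rfl) | (right; right; left; rfl) | (right; right; right; rfl) | (simp at h2)

theorem prm_unit {u : G} (h : IsUnit u) (hu : Prm u) : u = 1 := by
  rw [prm_iff] at hu
  rcases unit_cases h with h | h | h | h
  · exact h
  · subst h; simp at hu
  · subst h; simp at hu
  · subst h; simp at hu

theorem prm_assoc {a b : G} (h : Associated a b) (ha : Prm a) (hb : Prm b) : a = b := by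
  obtain ⟨u, hu⟩ := h
  rw [← hu] at hb
  have := prm_unit u.isUnit (prm_cancel ha hb)
  rw [← hu, this, mul_one]

/-- an odd element has an associate congruent to one -/
theorem exists_assoc (q : G) (hq : (q.re + q.im) % 2 = 1) : ∃ p : G, Associated q p ∧ Prm p := by
  have hI : IsUnit (⟨0, 1⟩ : G) := by
    rw [← nm_unit]; rfl
  rcases Int.emod_two_eq_zero_or_one q.im with h | h
  · by_cases h4 : (q.re - 1 + q.im) % 4 = 0
    · exact ⟨q, Associated.refl _, (prm_iff _).2 ⟨h, h4⟩⟩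
    · refine ⟨-q, (Associated.refl q).neg_right, (prm_iff _).2 ⟨?_, ?_⟩⟩
      · simp; omega
      · simp; omega
  · by_cases h4 : (-q.im - 1 + q.re) % 4 = 0
    · refine ⟨q * ⟨0, 1⟩, (associated_mul_unit_right q _ hI), (prm_iff _).2 ⟨?_, ?_⟩⟩
      · simp; omega
      · simp; omega
    · refine ⟨-(q * ⟨0, 1⟩), (associated_mul_unit_right q _ hI).neg_right, (prm_iff _).2 ⟨?_, ?_⟩⟩
      · simp; omega
      · simp; omega

theorem odd_of_dvd {q v : G} (h : q ∣ v) (hv : Prm v) : (q.re + q.im) % 2 = 1 := by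
  obtain ⟨w, rfl⟩ := h
  rw [prm_iff] at hv
  obtain ⟨h1, h2⟩ := hv
  simp at h1 h2
  by_contra hc
  have h3 : (q.re + q.im) % 2 = 0 := by omega
  obtain ⟨k, hk⟩ : ∃ k, q.re = -q.im + 2 * k := ⟨(q.re + q.im) / 2, by omega⟩
  rw [hk] at h1 h2
  have e1 : (-q.im + 2 * k) * w.im + q.im * w.re = q.im * (w.re - w.im) + 2 * (k * w.im) := by ring
  have e2 : (-q.im + 2 * k) * w.re + -(q.im * w.im) - 1 + ((-q.im + 2 * k) * w.im + q.im * w.re) =
      2 * (k * w.re + k * w.im - q.im * w.im) - 1 := by ring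
  rw [e2] at h2
  omega

theorem exists_prime {v : G} (hv : Prm v) (hu : ¬ IsUnit v) : ∃ p : Pr, p.1 ∣ v := by
  have h0 : v ≠ 0 := by
    rintro rfl
    rw [prm_iff] at hv
    simp at hv
  obtain ⟨q, hq, hqv⟩ := WfDvdMonoid.exists_irreducible_factor hu h0
  obtain ⟨p, hp, hpp⟩ := exists_assoc q (odd_of_dvd hqv hv)
  exact ⟨⟨p, hp.prime_iff.1 hq.prime, hpp⟩, (hp.dvd_iff_dvd_left.1 hqv)⟩

theorem fac1 : ∀ (n : ℕ) (v : G), nm v ≤ n → Prm v →
    ∃ (t : G) (A : Finset Pr), Prm t ∧ v = t ^ 2 * ∏ p ∈ A, p.1 := by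
  classical
  intro n
  induction n with
  | zero =>
    intro v hv hP
    have : nm v = 0 := by omega
    rw [nm_zero] at this
    subst this
    rw [prm_iff] at hP
    simp at hP
  | succ n ih =>
    intro v hv hP
    by_cases hu : IsUnit v
    · refine ⟨1, ∅, prm_one, ?_⟩
      simp [prm_unit hu hP]
    · obtain ⟨p, w, rfl⟩ := exists_prime hP hu
      have hw : Prm w := prm_cancel p.2.2 hP
      have hw0 : nm w ≠ 0 := by
        intro h
        rw [nm_zero] at h
        subst h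
        rw [prm_iff] at hw
        simp at hw
      have hp0 : nm p.1 ≠ 0 := by
        intro h
        rw [nm_zero] at h
        exact p.2.1.ne_zero h
      have hp1 : nm p.1 ≠ 1 := by
        intro h
        rw [nm_unit] at h
        exact p.2.1.not_isUnit h
      rw [nm_mul] at hv
      have hle : nm w ≤ n := by
        have h2 : 2 ≤ nm p.1 := by omega
        nlinarith [Nat.pos_of_ne_zero hw0]
      obtain ⟨t, A, ht, hA⟩ := ih w hle hw
      by_cases hpA : p ∈ A
      · refine ⟨p.1 * t, A.erase p, prm_mul p.2.2 ht, ?_⟩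
        rw [hA, ← Finset.mul_prod_erase A (fun q => q.1) hpA]
        ring
      · refine ⟨t, insert p A, ht, ?_⟩
        rw [hA, Finset.prod_insert hpA]
        ring

theorem not_dvd_prod (p : Pr) (A : Finset Pr) (h : p ∉ A) : ¬ p.1 ∣ ∏ q ∈ A, q.1 := by
  intro hd
  obtain ⟨q, hq, hpq⟩ := (Prime.dvd_finsetProd_iff p.2.1 _).1 hd
  have : p = q := Subtype.ext (prm_assoc ((Prime.dvd_prime_iff_associated p.2.1 q.2.1).1 hpq) p.2.2 q.2.2)
  exact h (this ▸ hq)

theorem parity (p : G) (hp : Prime p) (R R' : G) (hR : ¬ p ∣ R) (hR' : ¬ p ∣ R') :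
    ∀ (n : ℕ) (t t' : G), nm t' ≤ n → t' ≠ 0 → t ^ 2 * (p * R) ≠ t' ^ 2 * R' := by
  intro n
  induction n with
  | zero =>
    intro t t' h h0
    exact absurd (nm_zero.1 (by omega)) h0
  | succ n ih =>
    intro t t' h h0 he
    have h1 : p ∣ t' ^ 2 * R' := by
      rw [← he]
      exact ⟨t ^ 2 * R, by ring⟩
    have h2 : p ∣ t' := hp.dvd_of_dvd_pow ((hp.dvd_or_dvd h1).resolve_right hR')
    obtain ⟨s, rfl⟩ := h2
    have h3 : t ^ 2 * R = p * (s ^ 2 * R') := by
      apply mul_left_cancel₀ hp.ne_zero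
      linear_combination he
    have h4 : p ∣ t := hp.dvd_of_dvd_pow ((hp.dvd_or_dvd ⟨_, h3⟩).resolve_right hR)
    obtain ⟨r, rfl⟩ := h4
    have h5 : r ^ 2 * (p * R) = s ^ 2 * R' := by
      apply mul_left_cancel₀ hp.ne_zero
      linear_combination h3
    have hs : s ≠ 0 := by
      rintro rfl
      simp at h0
    have hs' : nm s ≠ 0 := fun h => hs (nm_zero.1 h)
    rw [nm_mul] at h
    have hp0 : nm p ≠ 0 := fun h => hp.ne_zero (nm_zero.1 h)
    have hp1 : nm p ≠ 1 := fun h => hp.not_isUnit (nm_unit.1 h)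
    have hle : nm s ≤ n := by
      have h2 : 2 ≤ nm p := by omega
      nlinarith [Nat.pos_of_ne_zero hs']
    exact ih r s hle hs h5

theorem prm_ne_zero {t : G} (h : Prm t) : t ≠ 0 := by
  rintro rfl
  rw [prm_iff] at h
  simp at h

theorem sub_of_eq (t t' : G) (A A' : Finset Pr) (ht' : Prm t')
    (h : t ^ 2 * ∏ p ∈ A, p.1 = t' ^ 2 * ∏ p ∈ A', p.1) : A ⊆ A' := by
  classical
  intro p hp
  by_contra hp'
  rw [← Finset.mul_prod_erase A (fun q => q.1) hp] at h
  exact parity p.1 p.2.1 (∏ q ∈ A.erase p, q.1) (∏ q ∈ A', q.1)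
    (not_dvd_prod p _ (Finset.notMem_erase p A)) (not_dvd_prod p _ hp') (nm t') t t' le_rfl
    (prm_ne_zero ht') h

theorem t_FAC : SFAC := by
  refine ⟨fun v hv => fac1 (nm v) v le_rfl hv, ?_⟩
  intro t t' A A' ht ht' h
  have hA : A = A' := Finset.Subset.antisymm (sub_of_eq t t' A A' ht' h) (sub_of_eq t' t A' A ht h.symm)
  subst hA
  refine ⟨?_, rfl⟩
  have h0 : ∏ p ∈ A, p.1 ≠ 0 := Finset.prod_ne_zero_iff.2 fun p _ => p.2.1.ne_zero
  have h1 := mul_right_cancel₀ h0 h
  rcases sq_eq_sq_iff_eq_or_eq_neg.1 h1 with h2 | h2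
  · exact h2
  · exfalso
    subst h2
    rw [prm_iff] at ht ht'
    simp at ht ht'
    omega

end Pool.Agent.Y427.PP
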